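import Pool.Agent.H95.ESP.Stmts

/-!
Row EXA of board esp (MP_3ddf05_nt): assembly of FIX, PCD, PRM, one value of `a'` at a time.
-/

set_option autoImplicit false

namespace ESP
open Finset

private lemma exa_R_pos (a b : ℤ) : 1 ≤ R a b := by
  unfold R
  apply Nat.one_le_iff_ne_zero.mpr
  apply Finset.prod_ne_zero_iff.mpr
  intro p hp
  exact (Nat.prime_of_mem_primeFactors (Finset.mem_filter.mp hp).1).ne_zero

/-- the bound for one value of `a'` -/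
private lemma exa_fiber (hPCD : S_PCD) {α C ε δ X₀ C₀ : ℝ} (hα : 1 < α) (hC : 0 < C)
    (hX₀ : 4 ≤ X₀) (hC₀ : 0 < C₀)
    (hP : ∀ X : ℝ, X₀ ≤ X → ∀ L : ℝ, 0 ≤ L → L ≤ X ^ δ → ∀ n : ℕ,
      (Nat.primeCounting ⌊C * (L + Real.log X / 4) ^ α⌋₊ : ℝ) ≤ n + 6 + L + Real.log X →
      ∃ k Q : ℕ, 1 ≤ Q ∧ ⌊C * (L + Real.log X / 4) ^ α⌋₊ ^ k ≤ Q ∧ (Q : ℝ) ^ 2 ≤ X ^ (1 / 2 : ℝ) ∧
        X ^ ((1 - 1 / α) / 4 - ε) ≤ (n.choose k : ℝ) / 5 ^ k)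
    (hF : ∀ (a b a' : ℤ) (B Q k z : ℕ), 1 ≤ Q → z ^ k ≤ Q →
      ∀ P : Finset ℕ, (∀ p ∈ P, p.Prime ∧ 13 ≤ p ∧ p ≤ z ∧ ¬ (p : ℤ) ∣ D a b ∧ ¬ (p : ℤ) ∣ a') →
      ∀ S : Finset ℤ, (∀ b' ∈ S, |b'| ≤ (B : ℤ) ∧ ∀ p ∈ P, ¬ (p : ℤ) ∣ D a' b' →
        pts a b p = pts a' b' p) →
      (S.card : ℝ) * ((P.card.choose k : ℝ) / 5 ^ k) ≤ C₀ * (2 * B + 1 + (Q : ℝ) ^ 2))
    {X : ℝ} (hX : X₀ ≤ X) {a b : ℤ} (hab : IsModel a b) (hL : Real.log (R a b) ≤ X ^ δ)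
    (a' : ℤ) (ha' : a' ≠ 0) (S : Finset ℤ)
    (hS : ∀ b' ∈ S, (a', b') ∈ Fam X ∧ X ^ (1 / 4 : ℝ) ≤ (R a' b' : ℝ) ∧ ¬ Sep C α a b a' b') :
    (S.card : ℝ) ≤ 3 * C₀ * X ^ (1 / 2 - (1 - 1 / α) / 4 + ε) := by
  have hX4 : (4 : ℝ) ≤ X := hX₀.trans hX
  have hXpos : (0 : ℝ) < X := by linarith
  rcases S.eq_empty_or_nonempty with h0 | ⟨b0, hb0⟩
  · subst h0
    simp only [Finset.card_empty, Nat.cast_zero]
    positivity
  -- the bound for a'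
  have ha'1 : (1 : ℝ) ≤ |(a' : ℝ)| := by
    have : (1 : ℤ) ≤ |a'| := Int.one_le_abs ha'
    have h2 : ((1 : ℤ) : ℝ) ≤ ((|a'| : ℤ) : ℝ) := by exact_mod_cast this
    simpa [Int.cast_abs] using h2
  have ha'X : |(a' : ℝ)| ≤ X := by
    have h1 := (hS b0 hb0).1.2.1
    have h2 : |(a' : ℝ)| ≤ |(a' : ℝ)| ^ 3 := le_self_pow₀ ha'1 (by norm_num)
    have h3 : 4 * |(a' : ℝ)| ^ 3 ≤ X := h1
    nlinarith [pow_pos (lt_of_lt_of_le one_pos ha'1) 3]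
  have hlog : Real.log |(a' : ℝ)| ≤ Real.log X :=
    Real.log_le_log (lt_of_lt_of_le one_pos ha'1) ha'X
  set L : ℝ := Real.log (R a b) with hLdef
  have hL0 : 0 ≤ L := Real.log_nonneg (by exact_mod_cast exa_R_pos a b)
  set z : ℕ := ⌊C * (L + Real.log X / 4) ^ α⌋₊ with hz
  set P : Finset ℕ := (range (z + 1)).filter (fun p : ℕ => p.Prime ∧ 13 ≤ p ∧
    ¬ (p : ℤ) ∣ D a b ∧ ¬ (p : ℤ) ∣ a') with hPdef
  have hpcd := hPCD a b a' z hab.1 ha'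
  obtain ⟨k, Q, hQ1, hzk, hQ2, hbin⟩ := hP X hX L hL0 hL P.card (by
    have h1 : (Nat.primeCounting z : ℝ) ≤ (P.card : ℝ) + 6 + L + Real.log |(a' : ℝ)| := hpcd
    have h2 : (Nat.primeCounting z : ℝ) ≤ (P.card : ℝ) + 6 + L + Real.log X := by linarith
    exact h2)
  have hlogX : 0 ≤ Real.log X := Real.log_nonneg (by linarith)
  have hbase : 0 ≤ L + Real.log X / 4 := by positivity
  have hzle : (z : ℝ) ≤ C * (L + Real.log X / 4) ^ α :=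
    Nat.floor_le (by positivity)
  set B : ℕ := ⌊(X / 27) ^ (1 / 2 : ℝ)⌋₊ with hB
  have hfix := hF a b a' B Q k z hQ1 hzk P (by
    intro p hp
    rw [hPdef, Finset.mem_filter, Finset.mem_range] at hp
    exact ⟨hp.2.1, hp.2.2.1, by omega, hp.2.2.2.1, hp.2.2.2.2⟩) S (by
    intro b' hb'
    obtain ⟨hfam, hR, hsep⟩ := hS b' hb'
    refine ⟨?_, ?_⟩
    · have h1 : 27 * (b' : ℝ) ^ 2 ≤ X := hfam.2.2
      have h2 : |(b' : ℝ)| ≤ (X / 27) ^ (1 / 2 : ℝ) := by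
        rw [← Real.sqrt_eq_rpow]
        apply Real.abs_le_sqrt
        linarith
      have h3 : ((b'.natAbs : ℕ) : ℝ) ≤ (X / 27) ^ (1 / 2 : ℝ) := by
        rw [Nat.cast_natAbs, Int.cast_abs]
        exact h2
      have h4 : b'.natAbs ≤ B := Nat.le_floor h3
      rw [Int.abs_eq_natAbs]
      exact_mod_cast h4
    · intro p hp hpD
      by_contra hne
      apply hsep
      rw [hPdef, Finset.mem_filter, Finset.mem_range] at hp
      refine ⟨p, hp.2.1, by omega, ?_, hp.2.2.2.1, hpD, hne⟩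
      have h1 : (p : ℝ) ≤ (z : ℝ) := by
        have : p ≤ z := by omega
        exact_mod_cast this
      refine h1.trans (hzle.trans ?_)
      have hRpos : (0 : ℝ) < (R a b : ℝ) := by
        have := exa_R_pos a b
        exact_mod_cast (by omega : 0 < R a b)
      have hR'pos : (0 : ℝ) < (R a' b' : ℝ) := by
        have := exa_R_pos a' b'
        exact_mod_cast (by omega : 0 < R a' b')
      have h2 : Real.log X / 4 ≤ Real.log (R a' b' : ℝ) := by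
        have h3 : Real.log (X ^ (1 / 4 : ℝ)) ≤ Real.log (R a' b' : ℝ) :=
          Real.log_le_log (by positivity) hR
        rw [Real.log_rpow hXpos] at h3
        linarith
      rw [Real.log_mul hRpos.ne' hR'pos.ne']
      have h4 : (L + Real.log X / 4) ^ α ≤
          (Real.log (R a b : ℝ) + Real.log (R a' b' : ℝ)) ^ α := by
        apply Real.rpow_le_rpow hbase _ (by linarith)
        rw [← hLdef]
        linarith
      exact mul_le_mul_of_nonneg_left h4 hC.le)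
  -- the numerical bound
  have hsq : (X : ℝ) ^ (1 / 2 : ℝ) = Real.sqrt X := by rw [← Real.sqrt_eq_rpow]
  have hsq2 : 2 ≤ X ^ (1 / 2 : ℝ) := by
    rw [hsq]
    apply Real.le_sqrt_of_sq_le
    linarith
  have hB2 : (B : ℝ) ≤ X ^ (1 / 2 : ℝ) / 4 := by
    have h1 : (B : ℝ) ≤ (X / 27) ^ (1 / 2 : ℝ) := Nat.floor_le (by positivity)
    have h2 : (X / 27) ^ (1 / 2 : ℝ) ≤ (X / 16) ^ (1 / 2 : ℝ) := by
      apply Real.rpow_le_rpow (by positivity) (by linarith) (by norm_num)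
    have h3 : (X / 16) ^ (1 / 2 : ℝ) = X ^ (1 / 2 : ℝ) / 4 := by
      rw [Real.div_rpow hXpos.le (by norm_num)]
      congr 1
      rw [← Real.sqrt_eq_rpow, show (16 : ℝ) = 4 ^ 2 by norm_num, Real.sqrt_sq (by norm_num)]
    linarith
  have hnum : (2 * (B : ℝ) + 1 + (Q : ℝ) ^ 2) ≤ 3 * X ^ (1 / 2 : ℝ) := by linarith
  have h5 : (S.card : ℝ) * X ^ ((1 - 1 / α) / 4 - ε) ≤ C₀ * (3 * X ^ (1 / 2 : ℝ)) := by
    calc (S.card : ℝ) * X ^ ((1 - 1 / α) / 4 - ε)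
        ≤ (S.card : ℝ) * ((P.card.choose k : ℝ) / 5 ^ k) :=
          mul_le_mul_of_nonneg_left hbin (Nat.cast_nonneg _)
      _ ≤ C₀ * (2 * B + 1 + (Q : ℝ) ^ 2) := hfix
      _ ≤ C₀ * (3 * X ^ (1 / 2 : ℝ)) := mul_le_mul_of_nonneg_left hnum hC₀.le
  have hxp : 0 < X ^ ((1 - 1 / α) / 4 - ε) := by positivity
  have h6 : X ^ (1 / 2 - (1 - 1 / α) / 4 + ε) * X ^ ((1 - 1 / α) / 4 - ε) = X ^ (1 / 2 : ℝ) := by
    rw [← Real.rpow_add hXpos]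
    congr 1
    ring
  refine le_of_mul_le_mul_right ?_ hxp
  calc (S.card : ℝ) * X ^ ((1 - 1 / α) / 4 - ε) ≤ C₀ * (3 * X ^ (1 / 2 : ℝ)) := h5
    _ = 3 * C₀ * (X ^ (1 / 2 - (1 - 1 / α) / 4 + ε) * X ^ ((1 - 1 / α) / 4 - ε)) := by
        rw [h6]; ring
    _ = 3 * C₀ * X ^ (1 / 2 - (1 - 1 / α) / 4 + ε) * X ^ ((1 - 1 / α) / 4 - ε) := by ring

theorem EXA_thm (hFIX : S_FIX) (hPCD : S_PCD) (hPRM : S_PRM) : S_EXA := by
  intro α C ε hα hC hε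
  obtain ⟨δ, X₀, hδ, hX₀, hP⟩ := hPRM α C ε hα hC hε
  obtain ⟨C₀, hC₀, hF⟩ := hFIX
  refine ⟨δ, X₀, 9 * C₀, hδ, hX₀, ?_⟩
  intro X hX a b hab hL S hS
  have hX4 : (4 : ℝ) ≤ X := hX₀.trans hX
  have hXpos : (0 : ℝ) < X := by linarith
  set A : ℕ := ⌊X ^ (1 / 3 : ℝ)⌋₊ with hA
  have hAle : (A : ℝ) ≤ X ^ (1 / 3 : ℝ) := Nat.floor_le (by positivity)
  have hone : 1 ≤ X ^ (1 / 3 : ℝ) := Real.one_le_rpow (by linarith) (by norm_num)
  have hmaps : Set.MapsTo (fun q : ℤ × ℤ => q.1) (S : Set (ℤ × ℤ))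
      (Finset.Icc (-(A : ℤ)) (A : ℤ) : Finset ℤ) := by
    intro q hq
    have hq' : q ∈ S := hq
    have h1 : 4 * |(q.1 : ℝ)| ^ 3 ≤ X := (hS q hq').1.2.1
    have h2 : |(q.1 : ℝ)| ^ 3 ≤ X := by
      have : 0 ≤ |(q.1 : ℝ)| ^ 3 := by positivity
      linarith
    have h3 : |(q.1 : ℝ)| ≤ X ^ (1 / 3 : ℝ) := by
      have h4 : (|(q.1 : ℝ)| ^ 3) ^ (1 / 3 : ℝ) ≤ X ^ (1 / 3 : ℝ) :=
        Real.rpow_le_rpow (by positivity) h2 (by norm_num)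
      have h5 : (|(q.1 : ℝ)| ^ 3) ^ (1 / 3 : ℝ) = |(q.1 : ℝ)| := by
        rw [← Real.rpow_natCast, ← Real.rpow_mul (abs_nonneg _)]
        norm_num
      linarith
    have h6 : q.1.natAbs ≤ A := by
      apply Nat.le_floor
      rw [Nat.cast_natAbs, Int.cast_abs]
      exact h3
    rw [Finset.coe_Icc, Set.mem_Icc]
    show -(A : ℤ) ≤ q.1 ∧ q.1 ≤ (A : ℤ)
    omega
  have hcard : S.card = ∑ a' ∈ Finset.Icc (-(A : ℤ)) (A : ℤ), (S.filter (fun q => q.1 = a')).card :=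
    Finset.card_eq_sum_card_fiberwise hmaps
  have hfib : ∀ a' ∈ Finset.Icc (-(A : ℤ)) (A : ℤ), ((S.filter (fun q => q.1 = a')).card : ℝ) ≤
      3 * C₀ * X ^ (1 / 2 - (1 - 1 / α) / 4 + ε) := by
    intro a' _
    by_cases ha' : a' = 0
    · have : S.filter (fun q => q.1 = a') = ∅ := by
        apply Finset.filter_eq_empty_iff.mpr
        intro q hq h0
        exact (hS q hq).2.1 (h0.trans ha')
      rw [this]
      simp only [Finset.card_empty, Nat.cast_zero]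
      positivity
    · have hinj : Set.InjOn (fun q : ℤ × ℤ => q.2) (S.filter (fun q => q.1 = a') : Finset (ℤ × ℤ)) := by
        intro q hq q' hq' h
        have h1 := (Finset.mem_filter.mp hq).2
        have h2 := (Finset.mem_filter.mp hq').2
        exact Prod.ext (h1.trans h2.symm) h
      rw [← Finset.card_image_of_injOn hinj]
      apply exa_fiber hPCD hα hC hX₀ hC₀ hP hF hX hab hL a' ha'
      intro b' hb'
      obtain ⟨q, hq, hqb⟩ := Finset.mem_image.mp hb'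
      obtain ⟨hqS, hqa⟩ := Finset.mem_filter.mp hq
      have hqe : q = (a', b') := Prod.ext hqa hqb
      have h := hS q hqS
      rw [hqe] at h
      exact ⟨h.1, h.2.2.1, h.2.2.2⟩
  have hsum : (S.card : ℝ) ≤ (2 * A + 1 : ℝ) * (3 * C₀ * X ^ (1 / 2 - (1 - 1 / α) / 4 + ε)) := by
    rw [hcard]
    push_cast
    calc ∑ a' ∈ Finset.Icc (-(A : ℤ)) (A : ℤ), ((S.filter (fun q => q.1 = a')).card : ℝ)
        ≤ ∑ a' ∈ Finset.Icc (-(A : ℤ)) (A : ℤ), 3 * C₀ * X ^ (1 / 2 - (1 - 1 / α) / 4 + ε) :=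
          Finset.sum_le_sum hfib
      _ = ((Finset.Icc (-(A : ℤ)) (A : ℤ)).card : ℝ) *
          (3 * C₀ * X ^ (1 / 2 - (1 - 1 / α) / 4 + ε)) := by
          rw [Finset.sum_const, nsmul_eq_mul]
      _ = (2 * A + 1 : ℝ) * (3 * C₀ * X ^ (1 / 2 - (1 - 1 / α) / 4 + ε)) := by
          congr 1
          rw [Int.card_Icc]
          have : ((A : ℤ) + 1 - -(A : ℤ)).toNat = 2 * A + 1 := by omega
          rw [this]
          push_cast
          ring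
  have hpos : 0 ≤ 3 * C₀ * X ^ (1 / 2 - (1 - 1 / α) / 4 + ε) := by positivity
  calc (S.card : ℝ) ≤ (2 * A + 1 : ℝ) * (3 * C₀ * X ^ (1 / 2 - (1 - 1 / α) / 4 + ε)) := hsum
    _ ≤ (3 * X ^ (1 / 3 : ℝ)) * (3 * C₀ * X ^ (1 / 2 - (1 - 1 / α) / 4 + ε)) :=
        mul_le_mul_of_nonneg_right (by linarith) hpos
    _ = 9 * C₀ * (X ^ (1 / 3 : ℝ) * X ^ (1 / 2 - (1 - 1 / α) / 4 + ε)) := by ring
    _ = 9 * C₀ * X ^ (5 / 6 - (1 - 1 / α) / 4 + ε) := by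
        rw [← Real.rpow_add hXpos]
        congr 2
        ring

end ESP
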